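import Pool.Agent.Helper4.S7.StD2

/-!
# Project W7, module CERT12: the finite certificates `S7Cert1` and `S7Cert2`

Each conjunct is checked by the kernel.
-/

set_option autoImplicit false
set_option maxRecDepth 1000000

namespace Pool.Agent.Helper67.S7

open Pool.Agent.Helper4.S7 Pool.Agent.Helper84.S7 Pool.Agent.Helper52.S7 Pool.Agent.Helper76.S7

theorem hCert12 : S7Cert1 ∧ S7Cert2 := by
  refine ⟨⟨?_, ?_, ?_, ?_⟩, ⟨?_, ?_, ?_, ?_⟩⟩
  · decide +kernel
  · decide +kernel
  · decide +kernel
  · decide +kernel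
  · decide +kernel
  · decide +kernel
  · decide +kernel
  · decide +kernel

end Pool.Agent.Helper67.S7
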